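import Pool.Agent.T6.H18.NK.MainB
import Pool.Agent.T6.H18.NK.CNT
import Pool.Agent.T6.H18.NK.UNI
import Pool.Agent.T6.H18.NK.FLIP
import Pool.Agent.T6.H18.NK.TRIG
import Pool.Agent.T6.H18.NK.GEN
import Pool.Agent.T6.H18.NK.BASE
import Pool.Agent.T6.H18.NK.BASP
import Pool.Agent.T6.H18.NK.POS
import Pool.Agent.T6.H18.NK.COR

/-!
# MP_377d0a_co: geometric `(n_k)` configurations exist for all `n ≥ (k - 1) k ^ (⌈log₂ k⌉ + 2)`

Proof. The Minkowski sum of `r = ⌈log₂ k⌉` concentric regular `2 h`-gons with generic radii,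
restricted to `k` parity classes of the vertices, is a set of `k h ^ r` points, which the lines
of `k` suitable directions meet in `k` points each: so `k h ^ r ∈ N_k` for all `h ≥ k`, and the
lines of this configuration form `k` parallel classes of `h ^ r` lines. An affine switch (the
images under the maps `(x, y) ↦ (s x, (2 - s) y)` for `k - 1` values of `s`, where the images of
`j` horizontal lines are replaced by `j` points and `k j` lines through them) gives a
configuration with `(k - 1) k h ^ r + j` points for all `j ≤ h ^ r`. Disjoint unions of such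
configurations with `h = k` give all large `n`.
-/

set_option autoImplicit false

namespace Pool.Agent.Results.MP_377d0a_co.ExistenceThreshold

open Pool.Agent.T6.H18.NK in
theorem result : ∀ k n : ℕ, 2 ≤ k → (k - 1) * k ^ (Nat.clog 2 k + 2) ≤ n →
    ∃ (P : Finset (ℝ × ℝ)) (L : Finset (Set (ℝ × ℝ))), P.card = n ∧ L.card = n ∧
      (∀ l ∈ L, ∃ a b c : ℝ, (a ≠ 0 ∨ b ≠ 0) ∧ l = {p | a * p.1 + b * p.2 = c}) ∧
      (∀ p ∈ P, {l | l ∈ L ∧ p ∈ l}.ncard = k) ∧
      (∀ l ∈ L, {p | p ∈ P ∧ p ∈ l}.ncard = k) := by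
  classical
  intro k n hk hn
  obtain ⟨P, L, hC, hP, hL⟩ := mainB (uni cnt) (basp cnt flip trig gen) pos (cor cnt) semB
    (base cnt flip trig gen) k n hk hn
  refine ⟨P, L, hP, hL, hC.line, fun p hp => ?_, fun l hl => ?_⟩
  · have h := hC.pt p hp
    rw [← h, ← Set.ncard_coe_finset]
    congr 1
    ext l
    simp
  · have h := hC.ln l hl
    rw [← h, ← Set.ncard_coe_finset]
    congr 1
    ext p
    simp

end Pool.Agent.Results.MP_377d0a_co.ExistenceThreshold
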