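import Pool.Agent.T6.H18.NK.CNT
import Pool.Agent.T6.H18.NK.FLIP
import Pool.Agent.T6.H18.NK.TRIG
import Pool.Agent.T6.H18.NK.GEN
import Pool.Agent.T6.H18.NK.BASE

/-!
# MP_377d0a_co: geometric `(n_k)` configurations with `n = k h ^ ⌈log₂ k⌉` for all `h ≥ k`

Proof. The Minkowski sum of `r = ⌈log₂ k⌉` concentric regular `2 h`-gons with generic radii,
restricted to `k` parity classes of the vertices: the lines in `k` of the `h` directions
perpendicular to the odd axes.
-/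

set_option autoImplicit false

namespace Pool.Agent.Results.MP_377d0a_co.SmallConfigurations

open Pool.Agent.T6.H18.NK in
theorem result : ∀ k h : ℕ, 2 ≤ k → k ≤ h →
    ∃ (P : Finset (ℝ × ℝ)) (L : Finset (Set (ℝ × ℝ))),
      P.card = k * h ^ Nat.clog 2 k ∧ L.card = k * h ^ Nat.clog 2 k ∧
      (∀ l ∈ L, ∃ a b c : ℝ, (a ≠ 0 ∨ b ≠ 0) ∧ l = {p | a * p.1 + b * p.2 = c}) ∧
      (∀ p ∈ P, {l | l ∈ L ∧ p ∈ l}.ncard = k) ∧
      (∀ l ∈ L, {p | p ∈ P ∧ p ∈ l}.ncard = k) := by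
  classical
  intro k h hk hh
  obtain ⟨P, L, hC, hP, hL⟩ := base cnt flip trig gen k h hk hh
  refine ⟨P, L, hP, hL, hC.line, fun p hp => ?_, fun l hl => ?_⟩
  · have h := hC.pt p hp
    rw [← h, ← Set.ncard_coe_finset]
    congr 1
    ext l
    simp
  · have h := hC.ln l hl
    rw [← h, ← Set.ncard_coe_finset]
    congr 1
    ext p
    simp

end Pool.Agent.Results.MP_377d0a_co.SmallConfigurations
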